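import Pool.Agent.Lib.HW68.Core

/-! The disc inequality is stable under pull-back by holomorphic maps between coordinate spaces of
different dimensions. -/

open scoped Topology ComplexOrder Matrix ContDiff
open Set Filter Complex

noncomputable section

namespace Pool.Agent.Lib.HW68

open Pool.Agent.Lib.SV (E)
open Pool.Agent.Lib.HS32

variable {n N : ℕ}

/-- The complex Jacobian matrix of a map between coordinate spaces. -/
def jr (ψ : E n → E N) (z : E n) : Matrix (Fin N) (Fin n) ℂ :=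
  Matrix.of fun i j => fderiv ℂ ψ z (Pi.single j 1) i

theorem jr_mulVec (ψ : E n → E N) (z v : E n) : jr ψ z *ᵥ v = fderiv ℂ ψ z v := by
  conv_rhs => rw [pi_eq_sum_univ' v, map_sum]
  ext i
  simp only [jr, Matrix.mulVec, dotProduct, Matrix.of_apply, map_smul, Finset.sum_apply,
    Pi.smul_apply, smul_eq_mul, mul_comm]

/-- The derivative of type `(1,0)` in the direction `a`. -/
def d1 (a : E n) (f : E n → ℂ) (z : E n) : ℂ := ∑ k, a k * dz k f z

/-- The derivative of type `(0,1)` in the direction `a`. -/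
def d2 (a : E n) (f : E n → ℂ) (z : E n) : ℂ := ∑ l, star (a l) * dzb l f z

variable {f g : E n → ℂ} {z a : E n}

theorem d1_eq : d1 a f z = (fderiv ℝ f z a - I * fderiv ℝ f z (I • a)) / 2 := by
  rw [d1, fderiv_eq_sum, fderiv_eq_sum, Finset.mul_sum, ← Finset.sum_sub_distrib, Finset.sum_div]
  refine Finset.sum_congr rfl fun k _ => ?_
  simp only [Pi.smul_apply, smul_eq_mul, star_mul', Complex.star_def, Complex.conj_I]
  linear_combination (dz k f z * a k / 2 - dzb k f z * (starRingEnd ℂ) (a k) / 2) * I_mul_I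

theorem d2_eq : d2 a f z = (fderiv ℝ f z a + I * fderiv ℝ f z (I • a)) / 2 := by
  rw [d2, fderiv_eq_sum, fderiv_eq_sum, Finset.mul_sum, ← Finset.sum_add_distrib, Finset.sum_div]
  refine Finset.sum_congr rfl fun k _ => ?_
  simp only [Pi.smul_apply, smul_eq_mul, star_mul', Complex.star_def, Complex.conj_I]
  linear_combination (-(dz k f z * a k) / 2 + dzb k f z * (starRingEnd ℂ) (a k) / 2) * I_mul_I

theorem d12_comp {ψ : E n → E N} {F : E N → ℂ} (hψ : DifferentiableAt ℂ ψ z)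
    (hF : DifferentiableAt ℝ F (ψ z)) :
    d1 a (fun w => F (ψ w)) z = d1 (fderiv ℂ ψ z a) F (ψ z) ∧
      d2 a (fun w => F (ψ w)) z = d2 (fderiv ℂ ψ z a) F (ψ z) := by
  have e : ∀ b, fderiv ℝ (fun w => F (ψ w)) z b = fderiv ℝ F (ψ z) (fderiv ℂ ψ z b) := fun b => by
    have h := (hF.hasFDerivAt.comp z (hψ.hasFDerivAt.restrictScalars ℝ)).fderiv
    exact congrArg (fun L : E n →L[ℝ] ℂ => L b) h
  rw [d1_eq, d1_eq, d2_eq, d2_eq, e, e, map_smul]
  exact ⟨rfl, rfl⟩

theorem d1_hol (h : DifferentiableAt ℂ f z) : d1 a f z = fderiv ℂ f z a ∧ d2 a f z = 0 := by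
  have e : ∀ b, fderiv ℝ f z b = fderiv ℂ f z b := fun b => by
    rw [(h.hasFDerivAt.restrictScalars ℝ).fderiv]
    rfl
  rw [d1_eq, d2_eq, e, e, map_smul, smul_eq_mul]
  constructor
  · linear_combination (-(fderiv ℂ f z a) / 2) * I_mul_I
  · linear_combination (fderiv ℂ f z a / 2) * I_mul_I

theorem d1_star (h : DifferentiableAt ℝ f z) : d1 a (fun w => star (f w)) z = star (d2 a f z) := by
  simp only [d1, d2, dz_star h, star_sum, star_mul', star_star]

theorem d2_star (h : DifferentiableAt ℝ f z) : d2 a (fun w => star (f w)) z = star (d1 a f z) := by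
  simp only [d1, d2, dzb_star h, star_sum, star_mul']

theorem d1_mul (hf : DifferentiableAt ℝ f z) (hg : DifferentiableAt ℝ g z) :
    d1 a (fun w => f w * g w) z = d1 a f z * g z + f z * d1 a g z := by
  simp only [d1, dz_mul hf hg, mul_add, Finset.sum_add_distrib, Finset.mul_sum, Finset.sum_mul]
  congr 1 <;> exact Finset.sum_congr rfl fun k _ => by ring

theorem d2_mul (hf : DifferentiableAt ℝ f z) (hg : DifferentiableAt ℝ g z) :
    d2 a (fun w => f w * g w) z = d2 a f z * g z + f z * d2 a g z := by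
  simp only [d2, dzb_mul hf hg, mul_add, Finset.sum_add_distrib, Finset.mul_sum, Finset.sum_mul]
  congr 1 <;> exact Finset.sum_congr rfl fun k _ => by ring

theorem d2_add (hf : DifferentiableAt ℝ f z) (hg : DifferentiableAt ℝ g z) :
    d2 a (fun w => f w + g w) z = d2 a f z + d2 a g z := by
  simp only [d2, dzb_add hf hg, mul_add, Finset.sum_add_distrib]

theorem d1_sum {ι : Type} {s : Finset ι} {f : ι → E n → ℂ}
    (h : ∀ i ∈ s, DifferentiableAt ℝ (f i) z) :
    d1 a (fun w => ∑ i ∈ s, f i w) z = ∑ i ∈ s, d1 a (f i) z := by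
  simp only [d1, dz_sum h, Finset.mul_sum]
  exact Finset.sum_comm

theorem d2_sum {ι : Type} {s : Finset ι} {f : ι → E n → ℂ}
    (h : ∀ i ∈ s, DifferentiableAt ℝ (f i) z) :
    d2 a (fun w => ∑ i ∈ s, f i w) z = ∑ i ∈ s, d2 a (f i) z := by
  simp only [d2, dzb_sum h, Finset.mul_sum]
  exact Finset.sum_comm

theorem d2_congr (e : f =ᶠ[𝓝 z] g) : d2 a f z = d2 a g z := by simp only [d2, dzb_congr e]

theorem d1_congr_ev (e : f =ᶠ[𝓝 z] g) : d1 a f =ᶠ[𝓝 z] d1 a g := by
  filter_upwards [e.eventuallyEq_nhds] with w hw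
  simp only [d1, dz_congr hw]

theorem cd_d1 (h : ContDiffAt ℝ ∞ f z) : ContDiffAt ℝ ∞ (d1 a f) z :=
  ContDiffAt.sum fun k _ => contDiffAt_const.mul (cd_dz h k)

theorem hol_d1 (h : HolN f z) : HolN (d1 a f) z := by
  have h1 := ((mHOL n f z).2.2 h).2.1
  filter_upwards [eventually_all.2 h1] with w hw
  exact DifferentiableAt.fun_sum fun k _ => (hw k).const_mul _

theorem hol_cd (h : HolN f z) : ContDiffAt ℝ ∞ f z := ((mHOL n f z).2.2 h).1

/-- The mixed derivative of a product of an antiholomorphic, a smooth and a holomorphic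
function. -/
theorem d21_triple {p s q : E n → ℂ} (hp : HolN p z) (hs : ContDiffAt ℝ ∞ s z) (hq : HolN q z) :
    d2 a (d1 a fun w => star (p w) * s w * q w) z =
      star (p z) * d2 a (d1 a s) z * q z + star (d1 a p z) * d1 a s z * q z +
        star (p z) * d2 a s z * d1 a q z + star (d1 a p z) * s z * d1 a q z := by
  have cp := cd_diff (cd_star (hol_cd hp))
  have e : d1 a (fun w => star (p w) * s w * q w) =ᶠ[𝓝 z]
      fun w => star (p w) * d1 a s w * q w + star (p w) * s w * d1 a q w := by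
    filter_upwards [hp, hq, cd_ev_diff hs] with w h1 h2 h3
    have h4 := h1.restrictScalars ℝ
    rw [d1_mul ((diff_star h4).fun_mul h3) (h2.restrictScalars ℝ), d1_mul (diff_star h4) h3,
      d1_star h4, (d1_hol h1).2, star_zero, zero_mul, zero_add]
  have c1 := cd_diff (cd_d1 (a := a) hs)
  have c2 := cd_diff (hol_cd hq)
  have c3 := cd_diff (hol_cd (hol_d1 (a := a) hq))
  rw [d2_congr e, d2_add ((cp.fun_mul c1).fun_mul c2) ((cp.fun_mul (cd_diff hs)).fun_mul c3),
    d2_mul (cp.fun_mul c1) c2, d2_mul (cp.fun_mul (cd_diff hs)) c3, d2_mul cp c1,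
    d2_mul cp (cd_diff hs),
    d2_star (cd_diff (hol_cd hp)), (d1_hol hq.self_of_nhds).2,
    (d1_hol (hol_d1 hq).self_of_nhds).2]
  ring

theorem hol_apply {U : E n → E N} (h : HolN U z) (i : Fin N) : HolN (fun w => U w i) z :=
  h.mono fun _ hw => differentiableAt_pi.1 hw i

/-- The mixed derivative of the value of a form on a holomorphic field. -/
theorem d21_form {S : E n → Matrix (Fin N) (Fin N) ℂ} {U : E n → E N}
    (hS : ∀ i j, ContDiffAt ℝ ∞ (fun w => S w i j) z) (hU : HolN U z) :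
    d2 a (d1 a fun w => star (U w) ⬝ᵥ S w *ᵥ U w) z =
      ∑ i, ∑ j, (star (U z i) * d2 a (d1 a fun w => S w i j) z * U z j +
        star (fderiv ℂ U z a i) * d1 a (fun w => S w i j) z * U z j +
        star (U z i) * d2 a (fun w => S w i j) z * fderiv ℂ U z a j +
        star (fderiv ℂ U z a i) * S z i j * fderiv ℂ U z a j) := by
  have c : ∀ i j, ContDiffAt ℝ ∞ (fun w => star (U w i) * S w i j * U w j) z := fun i j =>
    ((cd_star (hol_cd (hol_apply hU i))).mul (hS i j)).mul (hol_cd (hol_apply hU j))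
  have e0 : (fun w => star (U w) ⬝ᵥ S w *ᵥ U w) =
      fun w => ∑ p : Fin N × Fin N, star (U w p.1) * S w p.1 p.2 * U w p.2 := funext fun w => by
    simp only [Fintype.sum_prod_type, dotProduct, Matrix.mulVec, Pi.star_apply, Finset.mul_sum,
      mul_assoc]
  have e1 : d1 a (fun w => ∑ p : Fin N × Fin N, star (U w p.1) * S w p.1 p.2 * U w p.2) =ᶠ[𝓝 z]
      fun w => ∑ p : Fin N × Fin N, d1 a (fun w => star (U w p.1) * S w p.1 p.2 * U w p.2) w := by
    filter_upwards [eventually_all.2 fun p : Fin N × Fin N => cd_ev_diff (c p.1 p.2)] with w hw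
    exact d1_sum (f := fun (p : Fin N × Fin N) w => star (U w p.1) * S w p.1 p.2 * U w p.2)
      fun p _ => hw p
  have e2 : ∀ i, d1 a (fun w => U w i) z = fderiv ℂ U z a i := fun i => by
    rw [(d1_hol (hol_apply hU i).self_of_nhds).1, fderiv_apply hU.self_of_nhds]
    rfl
  rw [e0, d2_congr e1, d2_sum
    (f := fun (p : Fin N × Fin N) => d1 a fun w => star (U w p.1) * S w p.1 p.2 * U w p.2)
    fun p _ => cd_diff (cd_d1 (c p.1 p.2)), Fintype.sum_prod_type]
  refine Finset.sum_congr rfl fun i _ => Finset.sum_congr rfl fun j _ => ?_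
  rw [d21_triple (hol_apply hU i) (hS i j) (hol_apply hU j), e2, e2]

theorem d21_eq (h : ContDiffAt ℝ ∞ f z) :
    d2 a (d1 a f) z = ∑ k, ∑ l, a k * star (a l) * dzb l (dz k f) z := by
  rw [show d1 a f = fun w => ∑ k, a k * dz k f w from rfl,
    d2_sum (f := fun k w => a k * dz k f w) fun k _ => (cd_diff (cd_dz h k)).const_mul _]
  refine Finset.sum_congr rfl fun k _ => Finset.sum_congr rfl fun l _ => ?_
  rw [dzb_const_mul _ (cd_diff (cd_dz h k))]
  ring

theorem dsc_eq {T : E n → Mat n} (hT : SmM T z) (v w : E n) : dsc T z v w =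
    ∑ i, ∑ j, (star (v i) * d2 v (d1 v fun w => T w i j) z * v j +
      star (w i) * d1 v (fun w => T w i j) z * v j +
      star (v i) * d2 v (fun w => T w i j) z * w j + star (w i) * T z i j * w j) := by
  have e : ∀ (A : Mat n) (x y : E n), star x ⬝ᵥ A *ᵥ y = ∑ i, ∑ j, star (x i) * A i j * y j :=
    fun A x y => by
      simp only [dotProduct, Matrix.mulVec, Pi.star_apply, Finset.mul_sum, mul_assoc]
  have e4 : ∑ k, ∑ l, v k * star (v l) * (star v ⬝ᵥ dMb l (dM k T) z *ᵥ v) =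
      star v ⬝ᵥ (∑ k, ∑ l, (v k * star (v l)) • dMb l (dM k T) z) *ᵥ v := by
    simp only [Matrix.sum_mulVec, dotProduct_sum, Matrix.smul_mulVec, dotProduct_smul, smul_eq_mul]
  rw [dsc, e4, e, e, e, e]
  simp only [Finset.sum_add_distrib, d21_eq (hT _ _), Matrix.sum_apply, Matrix.smul_apply,
    smul_eq_mul]
  rfl

theorem d21_comp {ψ : E n → E N} {F : E N → ℂ} (hψ : HolN ψ z) (hF : ContDiffAt ℝ ∞ F (ψ z)) :
    d2 a (d1 a fun w => F (ψ w)) z = d2 (fderiv ℂ ψ z a) (d1 (fderiv ℂ ψ z a) F) (ψ z) := by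
  have e2 : ∀ c, (fun w => fderiv ℂ ψ w a c) =ᶠ[𝓝 z] d1 a fun w => ψ w c := fun c => by
    filter_upwards [hψ] with w hw
    rw [(d1_hol (differentiableAt_pi.1 hw c)).1, fderiv_apply hw]
    rfl
  have h2 : ∀ c, DifferentiableAt ℂ (fun w => fderiv ℂ ψ w a c) z := fun c =>
    (hol_d1 (hol_apply hψ c)).self_of_nhds.congr_of_eventuallyEq (e2 c)
  have h3 : ∀ c, DifferentiableAt ℝ (fun w => dz c F (ψ w)) z := fun c =>
    (cd_diff (cd_dz hF c)).comp z (hψ.self_of_nhds.restrictScalars ℝ)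
  have e1 : d1 a (fun w => F (ψ w)) =ᶠ[𝓝 z] fun w => ∑ c, fderiv ℂ ψ w a c * dz c F (ψ w) := by
    filter_upwards [hψ, hψ.self_of_nhds.continuousAt.eventually (cd_ev_diff hF)] with w h1 h2
    exact (d12_comp h1 h2).1
  rw [d2_congr e1, d2_sum (f := fun c w => fderiv ℂ ψ w a c * dz c F (ψ w))
    fun c _ => ((h2 c).restrictScalars ℝ).mul (h3 c),
    show d1 (fderiv ℂ ψ z a) F = fun w => ∑ c, fderiv ℂ ψ z a c * dz c F w from rfl,
    d2_sum (f := fun c w => fderiv ℂ ψ z a c * dz c F w)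
      fun c _ => (cd_diff (cd_dz hF c)).const_mul _]
  refine Finset.sum_congr rfl fun c _ => ?_
  rw [d2_mul ((h2 c).restrictScalars ℝ) (h3 c), (d1_hol (h2 c)).2, zero_mul, zero_add,
    (d12_comp hψ.self_of_nhds (cd_diff (cd_dz hF c))).2,
    d2_mul (differentiableAt_const _) (cd_diff (cd_dz hF c)),
    (d1_hol (differentiableAt_const _)).2, zero_mul, zero_add]

theorem hol_jr {ψ : E n → E N} (hψ : HolN ψ z) (i : Fin N) (j : Fin n) :
    HolN (fun w => jr ψ w i j) z := by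
  filter_upwards [hψ.eventually_nhds, hol_d1 (a := Pi.single j 1) (hol_apply hψ i)] with w h1 h2
  refine h2.congr_of_eventuallyEq ?_
  filter_upwards [h1] with y hy
  rw [(d1_hol (differentiableAt_pi.1 hy i)).1, fderiv_apply hy]
  rfl

theorem hol_cdv {ψ : E n → E N} (hψ : HolN ψ z) : ContDiffAt ℝ ∞ ψ z :=
  contDiffAt_pi.2 fun i => hol_cd (hol_apply hψ i)

variable {ψ : E n → E N} {T : E N → Mat N} {T' : E n → Mat n}

theorem sm_pb (hψ : HolN ψ z) (hT : SmM T (ψ z))
    (e : ∀ᶠ w in 𝓝 z, T' w = (jr ψ w)ᴴ * T (ψ w) * jr ψ w) : SmM T' z := fun i j => by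
  have c : ContDiffAt ℝ ∞ (fun w => ((jr ψ w)ᴴ * T (ψ w) * jr ψ w) i j) z := by
    simp only [Matrix.mul_apply, Matrix.conjTranspose_apply]
    exact ContDiffAt.sum fun b _ => (ContDiffAt.sum fun a _ =>
      (cd_star (hol_cd (hol_jr hψ a i))).mul ((hT a b).comp z (hol_cdv hψ))).mul
      (hol_cd (hol_jr hψ b j))
  exact c.congr_of_eventuallyEq (e.mono fun w hw => congrArg (fun A : Mat n => A i j) hw)

theorem quad_pb (J : Matrix (Fin N) (Fin n) ℂ) (A : Mat N) (v w : E n) :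
    star w ⬝ᵥ (Jᴴ * A * J) *ᵥ v = star (J *ᵥ w) ⬝ᵥ A *ᵥ (J *ᵥ v) := by
  rw [Matrix.star_mulVec, ← Matrix.dotProduct_mulVec, Matrix.mulVec_mulVec, Matrix.mulVec_mulVec]

/-- Discs are mapped to discs. -/
theorem dsc_pb (hψ : HolN ψ z) (hT : SmM T (ψ z))
    (e : ∀ᶠ w in 𝓝 z, T' w = (jr ψ w)ᴴ * T (ψ w) * jr ψ w) (v w : E n) :
    ∃ w', dsc T' z v w = dsc T (ψ z) (jr ψ z *ᵥ v) w' := by
  by_cases hv : v = 0
  · refine ⟨jr ψ z *ᵥ w, ?_⟩
    subst hv
    simp [dsc, e.self_of_nhds, quad_pb]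
  obtain ⟨k, hk⟩ := Function.ne_iff.1 hv
  have hk' : v k ≠ 0 := hk
  let V : E n → E n := fun y => v + ((y k - z k) / v k) • w
  have hd : ∀ y, HasFDerivAt V (((v k)⁻¹ • ContinuousLinearMap.proj (R := ℂ)
      (φ := fun _ : Fin n => ℂ) k).smulRight w) y := fun y => by
    have h1 := (((hasFDerivAt_apply (𝕜 := ℂ) (F' := fun _ : Fin n => ℂ) k y).sub_const
      (z k)).mul_const (v k)⁻¹).smul_const w
    refine (h1.const_add v).congr_fderiv ?_
    ext1 u
    simp
  have hV : HolN V z := Eventually.of_forall fun y => (hd y).differentiableAt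
  have V0 : V z = v := by simp [V]
  have V1 : fderiv ℂ V z v = w := by
    rw [(hd z).fderiv]
    simp [hk']
  have hU : HolN (fun y => jr ψ y *ᵥ V y) z := by
    filter_upwards [eventually_all.2 fun i => eventually_all.2 fun j => hol_jr hψ i j] with y hy
    refine differentiableAt_pi.2 fun i => ?_
    simp only [Matrix.mulVec, dotProduct]
    exact DifferentiableAt.fun_sum fun j _ =>
      (hy i j).fun_mul (differentiableAt_pi.1 (hd y).differentiableAt j)
  have f1 := d21_form (a := v) (sm_pb hψ hT e) hV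
  have f2 := d21_form (a := v) (S := fun y => T (ψ y)) (fun i j => (hT i j).comp z (hol_cdv hψ)) hU
  have f3 : (fun y => star (V y) ⬝ᵥ T' y *ᵥ V y) =ᶠ[𝓝 z]
      fun y => star (jr ψ y *ᵥ V y) ⬝ᵥ T (ψ y) *ᵥ (jr ψ y *ᵥ V y) :=
    e.mono fun y hy => by simp only [hy, quad_pb]
  rw [d2_congr (d1_congr_ev f3), f2, V0, V1, ← dsc_eq (sm_pb hψ hT e)] at f1
  refine ⟨fderiv ℂ (fun y => jr ψ y *ᵥ V y) z v, ?_⟩
  rw [← f1, dsc_eq hT]
  refine Finset.sum_congr rfl fun i _ => Finset.sum_congr rfl fun j _ => ?_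
  rw [d21_comp (F := fun y => T y i j) hψ (hT i j),
    (d12_comp (F := fun y => T y i j) hψ.self_of_nhds (hT.diff i j)).1,
    (d12_comp (F := fun y => T y i j) hψ.self_of_nhds (hT.diff i j)).2, ← jr_mulVec]

/-- The disc inequality for the pull-back. -/
theorem disc_pb (hψ : HolN ψ z) (hT : SmM T (ψ z))
    (e : ∀ᶠ w in 𝓝 z, T' w = (jr ψ w)ᴴ * T (ψ w) * jr ψ w) {κ : ℝ}
    (h : ∀ v w, κ * nq (T (ψ z)) v ^ 2 ≤ (dsc T (ψ z) v w).re) (v w : E n) :
    κ * nq (T' z) v ^ 2 ≤ (dsc T' z v w).re := by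
  obtain ⟨w', hw⟩ := dsc_pb hψ hT e v w
  rw [hw, nq, e.self_of_nhds, quad_pb]
  exact h _ w'

end Pool.Agent.Lib.HW68
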