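import Pool.Agent.Lib.HS32.MAll
import Pool.Agent.Lib.HS76.Pt
import Pool.Agent.Lib.HS68.Fun

/-! The integrated identity of Chern and Lu for an arbitrary Hermitian form on a compact Kähler
manifold: only the second derivative along holomorphic discs appears. -/

open scoped Topology ComplexOrder Matrix ContDiff
open Set Filter MeasureTheory

noncomputable section

namespace Pool.Agent.Lib.HW68

open Pool.Agent.Lib.SV (E)
open Pool.Agent.Lib.HS32 Pool.Agent.Lib.HS76

variable {n : ℕ}

/-- The mixed second derivative of the squared speed of a holomorphic disc through `z` with first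
derivative `v` and second derivative `w`. -/
def dsc (T : E n → Mat n) (z v w : E n) : ℂ :=
  ∑ k, ∑ l, v k * star (v l) * (star v ⬝ᵥ dMb l (dM k T) z *ᵥ v) +
    star w ⬝ᵥ (∑ k, v k • dM k T z) *ᵥ v + star v ⬝ᵥ (∑ l, star (v l) • dMb l T z) *ᵥ w +
    star w ⬝ᵥ T z *ᵥ w

/-- The covariant derivative of `T` for the connection of `G`. -/
def bb (G T : E n → Mat n) (k : Fin n) (z : E n) : Mat n := dM k T z - T z * gam G k z

/-- The second covariant derivative, without its curvature term. -/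
def nf (G T : E n → Mat n) (k l : Fin n) (z : E n) : Mat n :=
  dMb l (dM k T) z - dMb l T z * gam G k z - (gam G l z)ᴴ * bb G T k z

/-- Symmetrisation in the form index and the column index. -/
def sy (A : Fin n → Mat n) (k : Fin n) : Mat n := Matrix.of fun i j => A k i j + A j i k

theorem sy_apply (A : Fin n → Mat n) (k i j : Fin n) : sy A k i j = A k i j + A j i k := rfl

theorem sy_mul (L : Mat n) (A : Fin n → Mat n) (k : Fin n) :
    sy (fun k => L * A k) k = L * sy A k := by
  ext i j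
  simp only [sy_apply, Matrix.mul_apply, mul_add, Finset.sum_add_distrib]

theorem sy_add (A B : Fin n → Mat n) (k : Fin n) :
    sy (fun k => A k + B k) k = sy A k + sy B k := by
  ext i j
  simp only [sy_apply, Matrix.add_apply]
  ring

theorem sy_sub (A B : Fin n → Mat n) (k : Fin n) :
    sy (fun k => A k - B k) k = sy A k - sy B k := by
  ext i j
  simp only [sy_apply, Matrix.sub_apply]
  ring

theorem sy_symm {A : Fin n → Mat n} (h : ∀ i j k, A k i j = A j i k) (k : Fin n) :
    sy A k = A k + A k := by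
  ext i j
  rw [sy_apply, Matrix.add_apply, h i k j]

theorem sy_pb (J : Mat n) (A : Fin n → Mat n) (k : Fin n) :
    sy (fun k => (∑ a, J a k • A a) * J) k = (∑ a, J a k • sy A a) * J := by
  ext i j
  simp only [sy_apply, Matrix.mul_apply, Matrix.sum_apply, Matrix.smul_apply, smul_eq_mul,
    Finset.sum_mul, mul_add, add_mul, Finset.sum_add_distrib]
  congr 1
  rw [Finset.sum_comm]
  exact Finset.sum_congr rfl fun a _ => Finset.sum_congr rfl fun b _ => by ring

/-- The form of type `(1,0)` whose divergence is computed. -/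
def be (G T : E n → Mat n) (k : Fin n) (z : E n) : ℂ :=
  ((G z)⁻¹ * sy (fun j => bb G T j z) k).trace

/-- The dual vector field. -/
def vf (G T : E n → Mat n) (z : E n) : E n := (G z)⁻¹ *ᵥ fun l => star (be G T l z)

/-- The sum of the two contractions of a family. -/
def n12 (K : Mat n) (N : Fin n → Fin n → Mat n) : ℂ :=
  ∑ k, ∑ l, K k l * (K * sy (fun j => N j l) k).trace

section alg

theorem quart_sy (N : Fin n → Fin n → Mat n) (v : E n) :
    q4 (fun k l i j => N k l j i + N i l j k + (N k j l i + N i j l k)) v v v v =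
      4 * q4 (fun k l i j => N k l j i) v v v v := by
  have h1 : q4 (fun k l i j => N i l j k) v v v v = q4 (fun k l i j => N k l j i) v v v v := by
    unfold q4
    rw [Finset.sum_comm]
    conv_rhs => rw [Finset.sum_comm]
    refine Finset.sum_congr rfl fun l _ => ?_
    rw [Finset.sum_comm]
    exact Finset.sum_congr rfl fun k _ => Finset.sum_congr rfl fun i _ =>
      Finset.sum_congr rfl fun j _ => by ring
  have h2 : ∀ R : Fin n → Fin n → Fin n → Fin n → ℂ,
      q4 (fun k l i j => R k j i l) v v v v = q4 R v v v v := fun R => by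
    unfold q4
    refine Finset.sum_congr rfl fun k _ => ?_
    rw [Finset.sum_comm]
    conv_rhs => rw [Finset.sum_comm]
    refine Finset.sum_congr rfl fun i _ => ?_
    rw [Finset.sum_comm]
    exact Finset.sum_congr rfl fun j _ => Finset.sum_congr rfl fun l _ => by ring
  have h3 := h2 fun k l i j => N k l j i
  have h4 := h2 fun k l i j => N i l j k
  have h5 : q4 (fun k l i j => N k l j i + N i l j k + (N k j l i + N i j l k)) v v v v =
      q4 (fun k l i j => N k l j i) v v v v + q4 (fun k l i j => N i l j k) v v v v +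
      (q4 (fun k l i j => N k j l i) v v v v + q4 (fun k l i j => N i j l k) v v v v) := by
    simp only [q4, mul_add, Finset.sum_add_distrib]
  rw [h5, h3, h4, h1]
  ring

theorem q2_sy (N : Fin n → Fin n → Mat n) (K : Mat n) :
    q2 (fun k l i j => N k l j i + N i l j k + (N k j l i + N i j l k)) K K = 2 * n12 K N := by
  have h1 : q2 (fun k l i j => N k l j i + N i l j k) K K = n12 K N :=
    q2_fam (fun k l => sy (fun j => N j l) k) K K
  have h2 : q2 (fun k l i j => N k j l i + N i j l k) K K =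
      q2 (fun k l i j => N k l j i + N i l j k) K K := by
    have e : ∀ R : Fin n → Fin n → Fin n → Fin n → ℂ, q2 R K K =
        ∑ p : Fin n × Fin n, ∑ q : Fin n × Fin n, K p.1 p.2 * K q.1 q.2 * R p.1 p.2 q.1 q.2 :=
      fun R => by simp only [q2, Fintype.sum_prod_type]
    rw [e, e, Finset.sum_comm]
    exact Finset.sum_congr rfl fun p _ => Finset.sum_congr rfl fun q _ => by ring
  have h3 : q2 (fun k l i j => N k l j i + N i l j k + (N k j l i + N i j l k)) K K =
      q2 (fun k l i j => N k l j i + N i l j k) K K +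
        q2 (fun k l i j => N k j l i + N i j l k) K K := by
    simp only [q2, ← Finset.sum_add_distrib, ← mul_add]
  rw [h3, h2, h1, two_mul]

/-- The inequality of Royden without any symmetry. -/
theorem roy (N : Fin n → Fin n → Mat n) {K : Mat n} (hK : K.PosSemidef)
    (h : ∀ v : E n, (∑ k, ∑ l, v k * star (v l) * (star v ⬝ᵥ N k l *ᵥ v)).re ≤ 0) :
    (n12 K N).re ≤ 0 := by
  have := royden_mat (R := fun k l i j => N k l j i + N i l j k + (N k j l i + N i j l k))
    (fun k l i j => by ring) (fun k l i j => by ring) (fun v => by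
      rw [quart_sy, q4_fam]
      have := h v
      simp only [Complex.mul_re, Complex.re_ofNat, Complex.im_ofNat, zero_mul, sub_zero] at this ⊢
      linarith) hK
  rw [q2_sy] at this
  simp only [Complex.mul_re, Complex.re_ofNat, Complex.im_ofNat, zero_mul, sub_zero] at this
  linarith

theorem n12_sub (K : Mat n) (N N' : Fin n → Fin n → Mat n) :
    n12 K (fun k l => N k l - N' k l) = n12 K N - n12 K N' := by
  simp only [n12, sy_sub, Matrix.trace_sub, mul_sub, Finset.sum_sub_distrib]

theorem n12_sq (K T : Mat n) (c : ℂ) : n12 K (fun k l => (c * T l k) • T) =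
    c * ((K * T).trace ^ 2 + (K * T * K * T).trace) := by
  have e : ∀ k l, (K * sy (fun j => (c * T l j) • T) k).trace =
      c * T l k * (K * T).trace + c * (T * K * T) l k := fun k l => by
    simp only [Matrix.trace, Matrix.diag_apply, Matrix.mul_apply, sy_apply, Matrix.smul_apply,
      smul_eq_mul, mul_add, Finset.sum_add_distrib, Finset.mul_sum, Finset.sum_mul]
    congr 1
    · exact Finset.sum_congr rfl fun i _ => Finset.sum_congr rfl fun j _ => by ring
    · rw [Finset.sum_comm]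
      exact Finset.sum_congr rfl fun i _ => Finset.sum_congr rfl fun j _ => by ring
  have e1 : ∀ A : Mat n, ∑ k, ∑ l, K k l * A l k = (K * A).trace := fun A => by
    simp only [Matrix.trace, Matrix.diag_apply, Matrix.mul_apply]
  simp only [n12, e, mul_add, Finset.sum_add_distrib]
  rw [sq, Matrix.mul_assoc (K * T), Matrix.mul_assoc K T, ← Matrix.mul_assoc T K,
    ← e1 (T * K * T)]
  congr 1
  · generalize hs : (K * T).trace = s
    have e2 : s = ∑ k, ∑ l, K k l * T l k := by rw [e1, hs]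
    conv_rhs => enter [2, 1]; rw [e2]
    simp only [Finset.mul_sum, Finset.sum_mul]
    exact Finset.sum_congr rfl fun k _ => Finset.sum_congr rfl fun l _ => by ring
  · simp only [Finset.mul_sum]
    exact Finset.sum_congr rfl fun k _ => Finset.sum_congr rfl fun l _ => by ring

theorem tr4_nonneg {K T : Mat n} (hK : K.PosSemidef) (hT : T.IsHermitian) :
    0 ≤ (K * T * K * T).trace.re := by
  obtain ⟨W, rfl⟩ := psd_eq_mul hK
  have h := (Matrix.posSemidef_conjTranspose_mul_self (Wᴴ * T * W)).trace_nonneg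
  have e : ((Wᴴ * T * W)ᴴ * (Wᴴ * T * W)).trace = (W * Wᴴ * T * (W * Wᴴ) * T).trace := by
    simp only [Matrix.conjTranspose_mul, Matrix.conjTranspose_conjTranspose, hT.eq,
      Matrix.mul_assoc]
    rw [Matrix.trace_mul_comm W]
    simp only [Matrix.mul_assoc]
  rw [e] at h
  exact (Complex.nonneg_iff.1 h).1

/-- The lower bound for the sum of the two contractions. -/
theorem n12_ge (N : Fin n → Fin n → Mat n) {K T : Mat n} (hK : K.PosSemidef)
    (hT : T.IsHermitian) {κ : ℝ} (hκ : 0 ≤ κ)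
    (h : ∀ v : E n, κ * nq T v ^ 2 ≤ (∑ k, ∑ l, v k * star (v l) * (star v ⬝ᵥ N k l *ᵥ v)).re) :
    κ * (K * T).trace.re ^ 2 ≤ (n12 K N).re := by
  have h1 := roy (fun k l => ((κ : ℂ) * T l k) • T - N k l) hK fun v => by
    have e : star v ⬝ᵥ T *ᵥ v = (nq T v : ℝ) :=
      (Complex.conj_eq_iff_re.1 (by
        have := Matrix.IsHermitian.im_star_dotProduct_mulVec_self hT v
        exact Complex.conj_eq_iff_im.2 this)).symm
    have e2 : ∑ k, ∑ l, v k * star (v l) * (star v ⬝ᵥ ((κ : ℂ) * T l k) • T *ᵥ v) =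
        κ * (star v ⬝ᵥ T *ᵥ v) ^ 2 := by
      have e3 : star v ⬝ᵥ T *ᵥ v = ∑ k, ∑ l, v k * star (v l) * T l k := by
        simp only [dotProduct, Matrix.mulVec, Finset.mul_sum, Pi.star_apply]
        rw [Finset.sum_comm]
        exact Finset.sum_congr rfl fun k _ => Finset.sum_congr rfl fun l _ => by ring
      simp only [dotProduct_smul, smul_eq_mul]
      rw [sq, ← mul_assoc]
      conv_rhs => rw [e3]
      rw [← e3]
      conv_rhs => enter [1, 2]; rw [e3]
      simp only [Finset.mul_sum, Finset.sum_mul]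
      exact Finset.sum_congr rfl fun k _ => Finset.sum_congr rfl fun l _ => by ring
    simp only [Matrix.sub_mulVec, dotProduct_sub, mul_sub, Finset.sum_sub_distrib,
      Matrix.smul_mulVec]
    rw [e2, e, Complex.sub_re]
    have := h v
    have e4 : ((κ : ℂ) * ((nq T v : ℝ) : ℂ) ^ 2).re = κ * nq T v ^ 2 := by
      rw [← Complex.ofReal_pow, ← Complex.ofReal_mul, Complex.ofReal_re]
    rw [e4]
    linarith
  have h0 : (((K * T).trace.re : ℝ) : ℂ) = (K * T).trace := BINV.re_trace (by
    rw [Matrix.conjTranspose_mul, hT.eq, hK.isHermitian.eq, Matrix.trace_mul_comm])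
  rw [n12_sub, n12_sq, ← h0, Complex.sub_re, Complex.re_ofReal_mul,
    Complex.add_re, ← Complex.ofReal_pow, Complex.ofReal_re] at h1
  have h2 := mul_nonneg hκ (tr4_nonneg hK hT)
  linarith

end alg

variable {G T : E n → Mat n} {z : E n}

theorem sm_bb (hG : HS68.Loc G z) (hT : SmM T z) (k : Fin n) : SmM (bb G T k) z :=
  (hT.dM k).sub (hT.mul (hG.smM_gam k))

theorem sm_sy (hG : HS68.Loc G z) (hT : SmM T z) (k : Fin n) :
    SmM (fun w => sy (fun j => bb G T j w) k) z :=
  fun i j => (sm_bb hG hT k i j).add (sm_bb hG hT j i k)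

theorem sm_be (hG : HS68.Loc G z) (hT : SmM T z) (k : Fin n) : ContDiffAt ℝ ∞ (be G T k) z :=
  (hG.smM_inv.mul (sm_sy hG hT k)).trace

theorem quart_nf (v : E n) :
    ∑ k, ∑ l, v k * star (v l) * (star v ⬝ᵥ nf G T k l z *ᵥ v) =
      dsc T z v (-((∑ k, v k • gam G k z) *ᵥ v)) := by
  have e : ∑ k, ∑ l, (v k * star (v l)) • nf G T k l z =
      ∑ k, ∑ l, (v k * star (v l)) • dMb l (dM k T) z -
        (∑ l, star (v l) • dMb l T z) * (∑ k, v k • gam G k z) -
        (∑ k, v k • gam G k z)ᴴ * (∑ k, v k • dM k T z) +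
        (∑ k, v k • gam G k z)ᴴ * T z * ∑ k, v k • gam G k z := by
    simp only [nf, bb, smul_sub, Matrix.mul_sub, Finset.sum_sub_distrib, Matrix.conjTranspose_sum,
      Matrix.conjTranspose_smul, Matrix.sum_mul, Matrix.mul_sum, Matrix.smul_mul, Matrix.mul_smul,
      Finset.smul_sum, smul_smul, Matrix.mul_assoc]
    abel
  have e2 : ∀ N : Fin n → Fin n → Mat n, ∑ k, ∑ l, v k * star (v l) * (star v ⬝ᵥ N k l *ᵥ v) =
      star v ⬝ᵥ (∑ k, ∑ l, (v k * star (v l)) • N k l) *ᵥ v := fun N => by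
    simp only [Matrix.sum_mulVec, dotProduct_sum, Matrix.smul_mulVec, dotProduct_smul, smul_eq_mul]
  rw [dsc, e2, e2, e]
  simp only [Matrix.add_mulVec, Matrix.sub_mulVec, dotProduct_add, dotProduct_sub, star_neg,
    neg_dotProduct, Matrix.mulVec_neg, dotProduct_neg, neg_neg, Matrix.star_mulVec,
    ← Matrix.dotProduct_mulVec, Matrix.mulVec_mulVec, Matrix.mul_assoc]
  ring

theorem dzb_be (hG : HS68.Loc G z) (hK : HS68.Kl G z) (hT : SmM T z) (k l : Fin n) :
    dzb l (be G T k) z = ((G z)⁻¹ * sy (fun j => nf G T j l z) k).trace +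
      2 * ((G z)⁻¹ * T z * th G k l z).trace := by
  have a1 : ∀ j, dMb l (bb G T j) z =
      dMb l (dM j T) z - dMb l T z * gam G j z + T z * th G j l z := fun j => by
    have := dMb_sub (k := l) (hT.dM j) (hT.mul (hG.smM_gam j))
    rw [dMb_mul hT (hG.smM_gam j)] at this
    refine this.trans ?_
    rw [th, Matrix.mul_neg]
    abel
  have a2 : dMb l (fun w => sy (fun j => bb G T j w) k) z = sy (fun j => dMb l (bb G T j) z) k := by
    ext i j
    exact dzb_add ((sm_bb hG hT k).diff i j) ((sm_bb hG hT j).diff i k)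
  have a3 : (fun j => dMb l (bb G T j) z) = fun j =>
      nf G T j l z + (gam G l z)ᴴ * bb G T j z + T z * th G j l z := funext fun j => by
    rw [a1, nf]
    abel
  have a4 : sy (fun j => th G j l z) k = th G k l z + th G k l z :=
    sy_symm (fun i j k => hG.th_symm hK i j k l) k
  have a5 := dzb_trace (k := l) (hG.smM_inv.mul (sm_sy hG hT k))
  rw [dMb_mul hG.smM_inv (sm_sy hG hT k), hG.dMb_inv, a2, a3, sy_add, sy_add, sy_mul, sy_mul,
    a4] at a5
  refine a5.trans ?_
  simp only [Matrix.mul_add, Matrix.neg_mul, Matrix.trace_add, Matrix.trace_neg, Matrix.mul_assoc]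
  ring

theorem dv_vf (hG : HS68.Loc G z) (hK : HS68.Kl G z) (hT : SmM T z) :
    dv (fun w => (G w).det • vf G T w) z / (G z).det =
      star (n12 (G z)⁻¹ (fun k l => nf G T k l z) +
        2 * ((G z)⁻¹ * T z * (G z)⁻¹ * HS68.ricF G z).trace) := by
  have sc : ∀ k l, ContDiffAt ℝ ∞ (fun w => (G w).det * (G w)⁻¹ k l) z :=
    fun k l => hG.sm.det.mul (hG.smM_inv k l)
  have b5 : ∀ k, dz k (fun w => ((G w).det • vf G T w) k) z =
      ∑ l, (dz k (fun w => (G w).det * (G w)⁻¹ k l) z * star (be G T l z) +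
        (G z).det * (G z)⁻¹ k l * star (dzb k (be G T l) z)) := by
    intro k
    have e : (fun w => ((G w).det • vf G T w) k) =
        fun w => ∑ l, (G w).det * (G w)⁻¹ k l * star (be G T l w) := funext fun w => by
      simp only [vf, Pi.smul_apply, smul_eq_mul, Matrix.mulVec, dotProduct, Finset.mul_sum,
        mul_assoc]
    rw [e, dz_sum (f := fun l w => (G w).det * (G w)⁻¹ k l * star (be G T l w))
      fun l _ => (cd_diff (sc k l)).mul (cd_diff (cd_star (sm_be hG hT l)))]
    refine Finset.sum_congr rfl fun l _ => ?_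
    rw [dz_mul (cd_diff (sc k l)) (cd_diff (cd_star (sm_be hG hT l))),
      dz_star (cd_diff (sm_be hG hT l))]
  have b6 : ((G z)⁻¹ * T z * (G z)⁻¹ * HS68.ricF G z).trace =
      ∑ k, ∑ l, (G z)⁻¹ k l * ((G z)⁻¹ * T z * th G k l z).trace := by
    rw [Matrix.mul_assoc _ (G z)⁻¹, ← hG.ctr_th hK]
    simp only [Matrix.mul_sum, Matrix.mul_smul, Matrix.trace_sum, Matrix.trace_smul, smul_eq_mul]
  have b7 : ∀ k l, star ((G z)⁻¹ k l) = (G z)⁻¹ l k := fun k l => hG.pos.inv.isHermitian.apply l k
  rw [dv, div_eq_iff hG.det_ne]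
  simp only [b5, Finset.sum_add_distrib]
  rw [Finset.sum_comm]
  simp only [← Finset.sum_mul, hG.div_cof hK, zero_mul, Finset.sum_const_zero, zero_add]
  rw [b6, n12, Finset.mul_sum, ← Finset.sum_add_distrib, star_sum, Finset.sum_mul,
    Finset.sum_comm]
  refine Finset.sum_congr rfl fun k _ => ?_
  rw [Finset.mul_sum, ← Finset.sum_add_distrib, star_sum, Finset.sum_mul]
  refine Finset.sum_congr rfl fun l _ => ?_
  rw [dzb_be hG hK hT, ← b7 k l]
  simp only [star_add, star_mul', star_ofNat]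
  ring

theorem vec_vf (M : Mf n) {G T : M.Fam (Mat n)} (hG : M.Met G) (hT : M.Ten T) :
    M.Vec fun e => vf (G e) (T e) := by
  refine ⟨fun e he z hz => ?_, fun e he e' he' x hx hx' => ?_⟩
  · have lG := HS68.met_loc hG he hz
    exact lG.smM_inv.mulVec (contDiffAt_pi.2 fun l => cd_star (sm_be lG (hT.sm e he z hz) l))
  · obtain ⟨a1, a2, -, -, -⟩ := (mTR n M).2.1 e he e' he' x hx hx'
    have a3 : (e ∘ e'.symm) (e' x) = e x := by rw [Function.comp, e'.left_inv hx']
    have a4 := ((mPB n _ _ (G e) (G e') a1 a2 (a3 ▸ hG.sm.at he hx)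
      (BINV.ev_pb mTR hG.toTen he he' hx hx')).2.2 (a3 ▸ hG.det_ne.at he hx)).1
    have a5 := fun k => BPB.dM_pb mCHN a1 (T := T e) (T' := T e') (a3 ▸ (hT.sm.at he hx).diff)
      (BINV.ev_pb mTR hT he he' hx hx') k
    have a7 := hG.cmp e he e' he' x hx hx'
    have a8 := hT.cmp e he e' he' x hx hx'
    rw [a3] at a4 a5
    change ∀ k, _ = (M.J e e' x)⁻¹ * (∑ a, M.J e e' x a k • _) * M.J e e' x +
      (M.J e e' x)⁻¹ * _ at a4
    change ∀ k, _ = (M.J e e' x)ᴴ * (∑ a, M.J e e' x a k • _) * M.J e e' x +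
      (M.J e e' x)ᴴ * _ * _ at a5
    set J := M.J e e' x with hJ
    have c1 := fun B : Mat n => Matrix.nonsing_inv_mul_cancel_left Jᴴ B (BINV.ct_det a2).isUnit
    have c2 := fun B : Mat n => Matrix.mul_nonsing_inv_cancel_left J B a2.isUnit
    have b1 : (fun k => bb (G e') (T e') k (e' x)) =
        fun k => Jᴴ * ((∑ a, J a k • bb (G e) (T e) a (e x)) * J) := funext fun k => by
      rw [bb, a5, a4, a8]
      simp only [bb, smul_sub, Finset.sum_sub_distrib, Matrix.mul_add, Matrix.mul_sub,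
        Matrix.sub_mul, Matrix.mul_assoc, c2, Matrix.mul_sum, Matrix.sum_mul, Matrix.mul_smul,
        Matrix.smul_mul]
      abel
    have b2 : (fun l => star (be (G e') (T e') l (e' x))) =
        Jᴴ *ᵥ fun l => star (be (G e) (T e) l (e x)) := by
      funext l
      rw [be, b1, sy_mul, sy_pb, a7, ← Matrix.mul_assoc Jᴴ, BINV.inv_mul_pb a2,
        BINV.trace_conj a2]
      simp only [be, Matrix.mul_sum, Matrix.mul_smul, Matrix.trace_sum, Matrix.trace_smul,
        smul_eq_mul, star_sum, star_mul', Matrix.mulVec, dotProduct, Matrix.conjTranspose_apply]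
    rw [vf, vf, b2, a7, Matrix.mul_inv_rev, Matrix.mul_inv_rev, Matrix.mulVec_mulVec,
      Matrix.mulVec_mulVec, Matrix.mul_nonsing_inv_cancel_left _ _ a2.isUnit,
      Matrix.nonsing_inv_mul_cancel_right _ _ (BINV.ct_det a2).isUnit]

/-- The integrated identity: a smooth function with integral zero bounds the sum of the curvature
term and of twice the Ricci term. -/
theorem core (M : Mf n) [M.Cpt] {G T : M.Fam (Mat n)} (hG : M.Kae G) (hT : M.Form T) :
    ∃ Ψ : M.X → ℝ, M.Sm Ψ ∧ ∫ x, Ψ x ∂M.mu G = 0 ∧ M.All fun e z => ∀ κ : ℝ, 0 ≤ κ →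
      (∀ v w, κ * nq (T e z) v ^ 2 ≤ (dsc (T e) z v w).re) →
      κ * M.tr G T (e.symm z) ^ 2 + 2 * M.ip G T (M.ric G) (e.symm z) ≤ Ψ (e.symm z) := by
  obtain ⟨d1, d2, -⟩ := mDIV n M G hG.toMet
  obtain ⟨i1, i2, i3⟩ := d2 _ (d1 _ (vec_vf M hG.toMet hT.toTen))
  obtain ⟨-, -, -, -, m2, -⟩ := mMU n M G hG.toMet
  obtain ⟨j1, -, j3, -⟩ := mINV n M G hG.toMet
  obtain ⟨-, -, -, -, -, -, -, -, e3, -⟩ := mHES n M
  refine ⟨_, i2.re, ?_, fun e he z hz κ hκ h => ?_⟩
  · rw [← Complex.zero_re, ← i3 ‹_›]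
    exact integral_re (m2 ℂ _ i2.continuous)
  · have lG := HS68.met_loc hG.toMet he hz
    have r := (i1.rep e he z hz).trans (dv_vf lG (HS68.clo_kl hG.toClo he hz) (hT.sm e he z hz))
    have a : M.tr G T (e.symm z) = _ := (j1 T hT.toTen).1 e he z hz
    have b : M.ip G T (M.ric G) (e.symm z) = _ :=
      (j3 T _ hT.toTen (e3 G hG.toMet).toTen).1 e he z hz
    have c := n12_ge (fun k l => nf (G e) (T e) k l z) lG.pos.inv.posSemidef (hT.herm e he z hz) hκ
      fun v => by rw [quart_nf]; exact h v _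
    rw [r, a, b, Complex.star_def, Complex.conj_re, Complex.add_re]
    simp only [Complex.mul_re, Complex.re_ofNat, Complex.im_ofNat, zero_mul, sub_zero]
    exact add_le_add c le_rfl

/-- The disc inequality holds at every point in some chart. -/
def Dsc (M : Mf n) (T : M.Fam (Mat n)) (κ : M.X → ℝ) : Prop :=
  ∀ x, ∃ e ∈ M.C, x ∈ e.source ∧
    ∀ v w, κ x * nq (T e (e x)) v ^ 2 ≤ (dsc (T e) (e x) v w).re

/-- The integrated inequality. -/
theorem int_ineq (M : Mf n) [M.Cpt] {G T : M.Fam (Mat n)} (hG : M.Kae G) (hT : M.Form T)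
    {κ : M.X → ℝ} (hc : Continuous κ) (h0 : ∀ x, 0 ≤ κ x) (h : Dsc M T κ) :
    ∫ x, κ x * M.tr G T x ^ 2 ∂M.mu G ≤ -2 * ∫ x, M.ip G T (M.ric G) x ∂M.mu G := by
  obtain ⟨Ψ, p1, p2, p3⟩ := core M hG hT
  obtain ⟨-, -, -, -, m2, -⟩ := mMU n M G hG.toMet
  obtain ⟨j1, -, j3, -⟩ := mINV n M G hG.toMet
  obtain ⟨-, -, -, -, -, -, -, -, e3, -⟩ := mHES n M
  have c1 : Continuous fun x => κ x * M.tr G T x ^ 2 :=
    hc.mul ((j1 T hT.toTen).2.1.continuous.pow 2)
  have c2 := (j3 T _ hT.toTen (e3 G hG.toMet).toTen).2.1.continuous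
  have c3 := integral_mono ((m2 ℝ _ c1).add ((m2 ℝ _ c2).const_mul 2)) (m2 ℝ _ p1.continuous)
    fun x => by
      obtain ⟨e, he, hx, h1⟩ := h x
      have := p3 e he _ (e.map_source hx) _ (h0 x) h1
      rwa [e.left_inv hx] at this
  simp only [Pi.add_apply] at c3
  rw [integral_add (m2 ℝ _ c1) ((m2 ℝ _ c2).const_mul 2), integral_const_mul, p2] at c3
  linarith

/-- Completing the square for a positive definite form. -/
theorem dsc_ge (h : HS68.Loc T z) (v w : E n) : -(rm T z v v v v).re ≤ (dsc T z v w).re := by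
  have e1 : ∑ k, v k • dM k T z = T z * ∑ k, v k • gam T k z := by
    simp only [h.dM_eq, Matrix.mul_sum, Matrix.mul_smul]
  have e2 : ∑ l, star (v l) • dMb l T z = (∑ k, v k • gam T k z)ᴴ * T z := by
    simp only [h.dMb_eq, Matrix.conjTranspose_sum, Matrix.conjTranspose_smul, Matrix.sum_mul,
      Matrix.smul_mul]
  have e3 : ∑ k, ∑ l, (v k * star (v l)) • (T z * th T k l z) =
      (∑ k, v k • gam T k z)ᴴ * T z * (∑ k, v k • gam T k z) -
        ∑ k, ∑ l, (v k * star (v l)) • dMb l (dM k T) z := by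
    simp only [h.mul_th, smul_sub, Finset.sum_sub_distrib, Matrix.conjTranspose_sum,
      Matrix.conjTranspose_smul, Matrix.sum_mul, Matrix.mul_sum, Matrix.smul_mul, Matrix.mul_smul,
      Finset.smul_sum, smul_smul]
  have e4 : ∀ N : Fin n → Fin n → Mat n, ∑ k, ∑ l, v k * star (v l) * (star v ⬝ᵥ N k l *ᵥ v) =
      star v ⬝ᵥ (∑ k, ∑ l, (v k * star (v l)) • N k l) *ᵥ v := fun N => by
    simp only [Matrix.sum_mulVec, dotProduct_sum, Matrix.smul_mulVec, dotProduct_smul, smul_eq_mul]
  have e5 : dsc T z v w = -rm T z v v v v + star (w + (∑ k, v k • gam T k z) *ᵥ v) ⬝ᵥ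
      T z *ᵥ (w + (∑ k, v k • gam T k z) *ᵥ v) := by
    rw [dsc, rm, e4, e4, e1, e2, e3]
    simp only [Matrix.sub_mulVec, dotProduct_sub, star_add, add_dotProduct, Matrix.mulVec_add,
      dotProduct_add, Matrix.star_mulVec, ← Matrix.dotProduct_mulVec, Matrix.mulVec_mulVec,
      Matrix.mul_assoc]
    ring
  rw [e5, Complex.add_re, Complex.neg_re]
  exact le_add_of_nonneg_right (Complex.nonneg_iff.1 (h.pos.posSemidef.dotProduct_mulVec_nonneg _)).1

/-- The disc inequality for a Hermitian metric with a bound on its holomorphic sectional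
curvature. -/
theorem dsc_of_met {M : Mf n} {T : M.Fam (Mat n)} (hT : M.Met T) {κ : M.X → ℝ}
    (h : M.All fun e z => ∀ v, (rm (T e) z v v v v).re ≤ -(κ (e.symm z) * nq (T e z) v ^ 2)) :
    Dsc M T κ := fun x => ⟨M.ch x, Mf.ch_mem x, Mf.mem_ch x, fun v w => by
  have h1 := Mf.AllOn.ch h x v
  rw [Mf.ch_symm] at h1
  have h2 := dsc_ge (HS68.met_loc hT (Mf.ch_mem x) (Mf.ch_tgt x)) v w
  linarith⟩

end Pool.Agent.Lib.HW68
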