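import Pool.Agent.Lib.HW68.Pull
import Pool.Agent.Lib.RB.B_RBR

/-! The pull-back of a Hermitian metric by a holomorphic map between manifolds satisfies the disc
inequality. -/

open scoped Classical Topology ContDiff ComplexOrder Matrix Manifold
open Set Complex Filter

noncomputable section

namespace Pool.Agent.Lib.HW68

open Pool.Agent.Lib.SV (E)
open Pool.Agent.Lib.HS32 Pool.Agent.Lib.GH Pool.Agent.Lib.HS.BBR Pool.Agent.Lib.RB.R32

variable {n N k : ℕ}

theorem jr_comp {φ : E N → E k} {ψ : E n → E N} {χ : E n → E k} {z : E n}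
    (hφ : DifferentiableAt ℂ φ (ψ z)) (hψ : DifferentiableAt ℂ ψ z) (e : χ =ᶠ[𝓝 z] φ ∘ ψ) :
    jr χ z = jr φ (ψ z) * jr ψ z := by
  refine Matrix.ext_iff_mulVec.2 fun v => ?_
  rw [← Matrix.mulVec_mulVec, jr_mulVec, jr_mulVec, jr_mulVec, e.fderiv_eq, fderiv_comp z hφ hψ]
  rfl

variable {X Y : Type} [TopologicalSpace X] [ChartedSpace (E n) X] [IsManifold 𝓘(ℂ, E n) ω X]
  [TopologicalSpace Y] [ChartedSpace (E N) Y] [IsManifold 𝓘(ℂ, E N) ω Y] {f : X → Y}

theorem chart_mem (x : X) : chartAt (E n) x ∈ (mf n X).C :=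
  fun y => ⟨cp_chart x y, cp_chart y x⟩

theorem cp_mem {e e' : OpenPartialHomeomorph X (E n)} (he : e ∈ (mf n X).C)
    (he' : e' ∈ (mf n X).C) : Cp e e' := (mf n X).hol e he e' he'

omit [IsManifold 𝓘(ℂ, E n) ω X] [IsManifold 𝓘(ℂ, E N) ω Y] in
theorem md_chart (hf : MDifferentiable 𝓘(ℂ, E n) 𝓘(ℂ, E N) f) (x : X) :
    DifferentiableAt ℂ (chartAt (E N) (f x) ∘ f ∘ (chartAt (E n) x).symm) (chartAt (E n) x x) ∧
      ∀ v, mfderiv 𝓘(ℂ, E n) 𝓘(ℂ, E N) f x v =
        fderiv ℂ (chartAt (E N) (f x) ∘ f ∘ (chartAt (E n) x).symm) (chartAt (E n) x x) v := by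
  have h := ((mdifferentiableAt_iff f x).1 (hf x)).2
  have h2 := (hf x).mfderiv
  simp only [writtenInExtChartAt, mfld_simps, differentiableWithinAt_univ, fderivWithin_univ]
    at h h2
  exact ⟨h, fun v => by rw [h2]; rfl⟩

theorem ev_src {X Y : Type} [TopologicalSpace X] [TopologicalSpace Y] {f : X → Y}
    (hf : Continuous f) {e : OpenPartialHomeomorph X (E n)} {z : E n}
    (hz : z ∈ e.target) {U : Set Y} (hU : IsOpen U) (h : f (e.symm z) ∈ U) :
    ∀ᶠ w in 𝓝 z, f (e.symm w) ∈ U :=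
  (hf.continuousAt.comp (e.continuousAt_symm hz)).eventually (hU.mem_nhds h)

theorem md_at (hf : MDifferentiable 𝓘(ℂ, E n) 𝓘(ℂ, E N) f) {e : OpenPartialHomeomorph X (E n)}
    (he : e ∈ (mf n X).C) {c : OpenPartialHomeomorph Y (E N)} (hc : c ∈ (mf N Y).C) {z : E n}
    (hz : z ∈ e.target) (hy : f (e.symm z) ∈ c.source) :
    DifferentiableAt ℂ (c ∘ f ∘ e.symm) z := by
  set x := e.symm z
  set b := chartAt (E n) x
  set d := chartAt (E N) (f x)
  have hb : x ∈ b.source := mem_chart_source _ x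
  have hd : f x ∈ d.source := mem_chart_source _ (f x)
  have h1 : DifferentiableAt ℂ (b ∘ e.symm) z := (cp_mem (chart_mem x) he).at hz hb
  have h2 : DifferentiableAt ℂ (d ∘ f ∘ b.symm) ((b ∘ e.symm) z) := (md_chart hf x).1
  have h3 : DifferentiableAt ℂ (c ∘ d.symm) (((d ∘ f ∘ b.symm) ∘ b ∘ e.symm) z) := by
    have : ((d ∘ f ∘ b.symm) ∘ b ∘ e.symm) z = d (f x) := congrArg (d ∘ f) (b.left_inv hb)
    rw [this]
    exact (cp_mem hc (chart_mem (f x))).at (d.map_source hd) (by rwa [d.left_inv hd])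
  refine (h3.comp z (h2.comp z h1)).congr_of_eventuallyEq ?_
  filter_upwards [ev_src continuous_id' hz b.open_source hb,
    ev_src hf.continuous hz d.open_source hd] with w h4 h5
  show c (f (e.symm w)) = c (d.symm (d (f (b.symm (b (e.symm w))))))
  rw [b.left_inv h4, d.left_inv h5]

/-- The pull-back of `h` by `f`, read in all charts. -/
def pbk (f : X → Y) (h : Y → Mat N) : (mf n X).Fam (Mat n) := fun e z =>
  (jr (chartAt (E N) (f (e.symm z)) ∘ f ∘ e.symm) z)ᴴ * h (f (e.symm z)) *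
    jr (chartAt (E N) (f (e.symm z)) ∘ f ∘ e.symm) z

theorem fam_at (h : Y → Mat N) {c : OpenPartialHomeomorph Y (E N)} {y : Y} (hy : y ∈ c.source) :
    fam h c (c y) =
      (jr (chartAt (E N) y ∘ c.symm) (c y))ᴴ * h y * jr (chartAt (E N) y ∘ c.symm) (c y) :=
  congrArg (fun u : Y => (jr (chartAt (E N) u ∘ c.symm) (c y))ᴴ * h u *
    jr (chartAt (E N) u ∘ c.symm) (c y)) (c.left_inv hy)

theorem pbk_eq (hf : MDifferentiable 𝓘(ℂ, E n) 𝓘(ℂ, E N) f) (h : Y → Mat N)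
    {e : OpenPartialHomeomorph X (E n)} (he : e ∈ (mf n X).C) {c : OpenPartialHomeomorph Y (E N)}
    (hc : c ∈ (mf N Y).C) {z : E n} (hz : z ∈ e.target) (hy : f (e.symm z) ∈ c.source) :
    pbk f h e z = (jr (c ∘ f ∘ e.symm) z)ᴴ * fam h c ((c ∘ f ∘ e.symm) z) *
      jr (c ∘ f ∘ e.symm) z := by
  set y := f (e.symm z)
  have e1 : jr (chartAt (E N) y ∘ f ∘ e.symm) z =
      jr (chartAt (E N) y ∘ c.symm) (c y) * jr (c ∘ f ∘ e.symm) z := by
    refine jr_comp (ψ := c ∘ f ∘ e.symm) ((cp_mem (chart_mem y) hc).at (c.map_source hy) ?_)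
      (md_at hf he hc hz hy) ?_
    · show c.symm (c y) ∈ _
      rw [c.left_inv hy]
      exact mem_chart_source _ y
    · filter_upwards [ev_src hf.continuous hz c.open_source hy] with w hw
      show chartAt (E N) y (f (e.symm w)) = chartAt (E N) y (c.symm (c (f (e.symm w))))
      rw [c.left_inv hw]
  show (jr (chartAt (E N) y ∘ f ∘ e.symm) z)ᴴ * h y * jr (chartAt (E N) y ∘ f ∘ e.symm) z =
    _ * fam h c (c y) * _
  rw [e1, fam_at h hy]
  simp only [Matrix.conjTranspose_mul, Matrix.mul_assoc]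

theorem pbk_loc (hf : MDifferentiable 𝓘(ℂ, E n) 𝓘(ℂ, E N) f) (h : Y → Mat N)
    {e : OpenPartialHomeomorph X (E n)} (he : e ∈ (mf n X).C) {c : OpenPartialHomeomorph Y (E N)}
    (hc : c ∈ (mf N Y).C) {z : E n} (hz : z ∈ e.target) (hy : f (e.symm z) ∈ c.source) :
    HolN (c ∘ f ∘ e.symm) z ∧ ∀ᶠ w in 𝓝 z, pbk f h e w =
      (jr (c ∘ f ∘ e.symm) w)ᴴ * fam h c ((c ∘ f ∘ e.symm) w) * jr (c ∘ f ∘ e.symm) w := by
  have h1 := (e.open_target.eventually_mem hz).and (ev_src hf.continuous hz c.open_source hy)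
  exact ⟨h1.mono fun w hw => md_at hf he hc hw.1 hw.2,
    h1.mono fun w hw => pbk_eq hf h he hc hw.1 hw.2⟩

theorem jr_chg (hf : MDifferentiable 𝓘(ℂ, E n) 𝓘(ℂ, E N) f)
    {e e' : OpenPartialHomeomorph X (E n)} (he : e ∈ (mf n X).C) (he' : e' ∈ (mf n X).C) {x : X}
    (hx : x ∈ e.source) (hx' : x ∈ e'.source) :
    jr (chartAt (E N) (f x) ∘ f ∘ e'.symm) (e' x) =
      jr (chartAt (E N) (f x) ∘ f ∘ e.symm) (e x) * (mf n X).J e e' x := by
  have h0 : e'.symm (e' x) ∈ e.source := by rwa [e'.left_inv hx']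
  have h1 : (e ∘ e'.symm) (e' x) = e x := congrArg e (e'.left_inv hx')
  rw [← h1]
  refine jr_comp (ψ := e ∘ e'.symm) ?_ ((cp_mem he he').at (e'.map_source hx') h0) ?_
  · rw [h1]
    exact md_at hf he (chart_mem _) (e.map_source hx) (by
      rw [e.left_inv hx]
      exact mem_chart_source _ _)
  · filter_upwards [ev_src continuous_id' (e'.map_source hx') e.open_source h0] with w hw
    show chartAt (E N) (f x) (f (e'.symm w)) = chartAt (E N) (f x) (f (e.symm (e (e'.symm w))))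
    rw [e.left_inv hw]

omit [IsManifold 𝓘(ℂ, E N) ω Y] in
theorem pbk_at (h : Y → Mat N) {e : OpenPartialHomeomorph X (E n)} {x : X} (hx : x ∈ e.source) :
    pbk f h e (e x) = (jr (chartAt (E N) (f x) ∘ f ∘ e.symm) (e x))ᴴ * h (f x) *
      jr (chartAt (E N) (f x) ∘ f ∘ e.symm) (e x) :=
  congrArg (fun u : X => (jr (chartAt (E N) (f u) ∘ f ∘ e.symm) (e x))ᴴ * h (f u) *
    jr (chartAt (E N) (f u) ∘ f ∘ e.symm) (e x)) (e.left_inv hx)

variable {h : Y → Mat N}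

theorem fam_loc (hh : Hermitian h) (y : Y) :
    HS68.Loc (fam h (chartAt (M := Y) (E N) y)) (chartAt (E N) y y) ∧
      fam h (chartAt (M := Y) (E N) y) (chartAt (E N) y y) = h y := by
  have hy := mem_chart_source (E N) y
  refine ⟨HS68.met_loc (fam_ok hh).1 (chart_mem y) ((chartAt (E N) y).map_source hy), ?_⟩
  have j : jr (chartAt (E N) y ∘ (chartAt (E N) y).symm) (chartAt (E N) y y) = 1 :=
    (mTR N (mf N Y)).2.2.1 _ (chart_mem y) y hy
  rw [fam_at h hy, j, Matrix.conjTranspose_one, Matrix.one_mul, Matrix.mul_one]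

theorem pbk_sm (hh : Hermitian h) (hf : MDifferentiable 𝓘(ℂ, E n) 𝓘(ℂ, E N) f)
    {e : OpenPartialHomeomorph X (E n)} (he : e ∈ (mf n X).C) {z : E n} (hz : z ∈ e.target) :
    SmM (pbk f h e) z := by
  obtain ⟨h1, h2⟩ := pbk_loc hf h he (chart_mem _) hz (mem_chart_source (E N) (f (e.symm z)))
  exact sm_pb h1 (fam_loc hh (f (e.symm z))).1.sm h2

theorem pbk_cmp (hf : MDifferentiable 𝓘(ℂ, E n) 𝓘(ℂ, E N) f)
    {e e' : OpenPartialHomeomorph X (E n)} (he : e ∈ (mf n X).C) (he' : e' ∈ (mf n X).C) {x : X}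
    (hx : x ∈ e.source) (hx' : x ∈ e'.source) :
    pbk f h e' (e' x) = ((mf n X).J e e' x)ᴴ * pbk f h e (e x) * (mf n X).J e e' x := by
  rw [pbk_at h hx, pbk_at h hx', jr_chg hf he he' hx hx']
  simp only [Matrix.conjTranspose_mul, Matrix.mul_assoc]

theorem pbk_dsc (hh : Hermitian h) (hf : MDifferentiable 𝓘(ℂ, E n) 𝓘(ℂ, E N) f) {κ : ℝ} {x : X}
    (hc : ∀ v, curvAt h (f x) v v ≤ -(κ * (star v ⬝ᵥ h (f x) *ᵥ v).re ^ 2)) (v w : E n) :
    κ * nq (pbk f h (chartAt (M := X) (E n) x) (chartAt (E n) x x)) v ^ 2 ≤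
      (dsc (pbk f h (chartAt (M := X) (E n) x)) (chartAt (E n) x x) v w).re := by
  have hs := mem_chart_source (E n) x
  have e0 : (chartAt (E n) x).symm (chartAt (E n) x x) = x := (chartAt (E n) x).left_inv hs
  obtain ⟨h1, h2⟩ := pbk_loc hf h (chart_mem x) (chart_mem (f x))
    ((chartAt (E n) x).map_source hs) (by
      rw [e0]
      exact mem_chart_source _ _)
  have e1 : (chartAt (E N) (f x) ∘ f ∘ (chartAt (E n) x).symm) (chartAt (E n) x x) =
      chartAt (E N) (f x) (f x) := congrArg (chartAt (E N) (f x) ∘ f) e0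
  obtain ⟨l, e2⟩ := fam_loc hh (f x)
  refine disc_pb h1 (by rw [e1]; exact l.sm) h2 (fun v w => ?_) v w
  rw [e1, e2]
  have h3 := dsc_ge l v w
  rw [rm_curv l.sm l.pos.det_pos.ne'] at h3
  have h4 : (curv (fam h (chartAt (M := Y) (E N) (f x))) (chartAt (E N) (f x) (f x)) v v).re ≤
      -(κ * nq (h (f x)) v ^ 2) := hc v
  linarith

theorem pbk_pos (hh : Hermitian h) (hf : MDifferentiable 𝓘(ℂ, E n) 𝓘(ℂ, E N) f) {x : X}
    (hx : Function.Injective (mfderiv 𝓘(ℂ, E n) 𝓘(ℂ, E N) f x))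
    {e : OpenPartialHomeomorph X (E n)} (he : e ∈ (mf n X).C) (hs : x ∈ e.source) :
    (pbk f h e (e x)).PosDef := by
  have h2 := ((mTR n (mf n X)).2.1 _ (chart_mem x) _ he x (mem_chart_source (E n) x) hs).2.1
  rw [pbk_at h hs, jr_chg hf (chart_mem x) he (mem_chart_source (E n) x) hs]
  refine (hh.pos _).conjTranspose_mul_mul_same fun v w hvw => ?_
  rw [← Matrix.mulVec_mulVec, ← Matrix.mulVec_mulVec, jr_mulVec, jr_mulVec, ← (md_chart hf x).2,
    ← (md_chart hf x).2] at hvw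
  exact Matrix.mulVec_injective_iff_isUnit.2 ((Matrix.isUnit_iff_isUnit_det _).2 h2.isUnit)
    (hx hvw)

/-- The pull-back of a Hermitian metric with a bound on the holomorphic sectional curvature. -/
theorem pull {κ : X → ℝ} (hh : Hermitian h) (hf : MDifferentiable 𝓘(ℂ, E n) 𝓘(ℂ, E N) f)
    (hc : ∀ x v, curvAt h (f x) v v ≤ -(κ x * (star v ⬝ᵥ h (f x) *ᵥ v).re ^ 2)) :
    ∃ T : (mf n X).Fam (Mat n), (mf n X).Form T ∧ (mf n X).Le 0 T ∧ Dsc (mf n X) T κ ∧
      ∀ x : X, Function.Injective (mfderiv 𝓘(ℂ, E n) 𝓘(ℂ, E N) f x) →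
        ((mf n X).ev T x).PosDef := by
  have psd : ∀ e z, (pbk (n := n) f h e z).PosSemidef := fun e z =>
    (hh.pos _).posSemidef.conjTranspose_mul_mul_same _
  refine ⟨pbk f h, ⟨⟨fun e he z hz => pbk_sm hh hf he hz,
    fun e he e' he' x hx hx' => pbk_cmp hf he he' hx hx'⟩, fun e _ z _ => (psd e z).1⟩,
    fun e _ z _ => ?_, fun x : X => ⟨chartAt (M := X) (E n) x, chart_mem x,
      mem_chart_source (M := X) (E n) x,
      pbk_dsc hh hf (hc x)⟩,
    fun x hx => pbk_pos hh hf hx (Mf.ch_mem (M := mf n X) x) (Mf.mem_ch (M := mf n X) x)⟩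
  show (pbk f h e z - 0).PosSemidef
  rw [sub_zero]
  exact psd e z

end Pool.Agent.Lib.HW68
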